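import Pool.Agent.TH707.BP.NP
import Pool.Agent.W900.CH.NELev

/-!
# Partial MBPSP relative to an oracle: the hard direction
-/

set_option autoImplicit false

namespace Pool.Agent.TH707.BP

open Pool.Agent.NPC Pool.Agent.H620R2.Gauge Pool.Agent.H622R2 Pool.Agent.H622R2.Ckt
open Pool.Agent.H943R6.MC (cube table length_cube length_cube_mem SolvesGap few_easyG)
open Pool.Agent.TH707.PM (Agrees emb emb_eq poly_emb length_emb agrees_some agrees_self code_inj)

/-- the tables of the small programs -/
def LB (A : Oracle) : Set (List Bool) :=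
  {T | ∃ (n : ℕ) (P : Prog), 1 ≤ n ∧ T = table n (eval A P) ∧ size P ≤ 2 * Nat.sqrt T.length}

theorem emb_mem (A : Oracle) (T : List Bool) : emb T ∈ PMBPSP A ↔ T ∈ LB A := by
  constructor
  · rintro ⟨n, s, P, τ, hn, hs, hτ, h1⟩
    unfold emb at h1
    obtain ⟨h4, h5⟩ := H943R6.MC.HRD.pairBits_inj h1
    rw [emb_eq] at h4
    rw [← code_inj h4] at hτ
    have h6 := agrees_some hτ
    have h7 : s = 2 * Nat.sqrt T.length := by
      have := congrArg List.length h5
      simpa using this.symm
    exact ⟨n, P, hn, h6.symm, by rw [← h7]; exact hs⟩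
  · rintro ⟨n, P, hn, h1, h2⟩
    refine ⟨n, _, P, T.map some, hn, h2, ?_, by unfold emb; rw [emb_eq]⟩
    rw [← h1]
    exact agrees_self T

/-- the program with one question -/
def askP (u : List Bool) (n : ℕ) : Prog :=
  [(.inr (u.map Sum.inr ++ (List.range n).map Sum.inl), 0, 1)]

theorem size_askP (u : List Bool) (n : ℕ) : size (askP u n) = u.length + n + 3 := by
  simp [askP, size, nodeSize]
  omega

theorem eval_askP (u : List Bool) (A : Oracle) (x : List Bool) :
    eval A (askP u x.length) x = A (u ++ x) := by
  have h1 : (u.map (Sum.inr : Bool → QBit)).map (qval x) = u := by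
    rw [List.map_map]
    exact List.map_id u
  have h2 : ((List.range x.length).map (Sum.inl : ℕ → QBit)).map (qval x) = x := by
    rw [List.map_map]
    exact CIR.map_getD x
  unfold eval vals askP
  simp only [List.foldl_cons, List.foldl_nil, ans, List.map_append, h1, h2, List.length_cons,
    List.length_nil]
  cases A (u ++ x) <;> rfl

theorem two_pow_big {j : ℕ} (hj : 11 ≤ j) : 160 * j ≤ 2 ^ j := by
  induction j, hj using Nat.le_induction with
  | base => norm_num
  | succ i hi ih => rw [pow_succ]; omega

/-- all tables of functions with not too large circuits -/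
def LC (A : Oracle) : Set (List Bool) :=
  {T | ∃ (n : ℕ) (C : Circuit), T = table n (C.eval A) ∧
    ¬ (2 * Nat.sqrt (2 ^ n) < C.size ∧ 2 ^ n < 8 * n * C.size)}

theorem length_table (n : ℕ) (F : List Bool → Bool) : (table n F).length = 2 ^ n := by
  rw [table, List.length_map, length_cube]

theorem solvesGap_LC (A : Oracle) : SolvesGap A (LC A) := by
  intro n F
  constructor
  · rintro ⟨C, h1, h2⟩
    exact ⟨n, C, h1.symm, fun h3 => absurd h3.1 (by omega)⟩
  · rintro h ⟨n', C, h1, h2⟩
    have h3 : n = n' := by
      have := congrArg List.length h1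
      rw [length_table, length_table] at this
      exact Nat.pow_right_injective (le_refl 2) this
    subst h3
    exact h2 (h C h1.symm)

/-- The language `L` solves the gap version of the minimum branching program size problem relative
to `A`: it contains every truth table `T` (of a function of `n ≥ 1` variables, `|T| = 2 ^ n`) that
belongs to a branching program of size at most `2 * ⌊sqrt |T|⌋`, and no truth table `T` such that
every branching program with this table has size greater than `|T| / (40 log |T|)` (and greater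
than `2 * ⌊sqrt |T|⌋`). -/
def GapBP (A : Oracle) (L : Set (List Bool)) : Prop :=
  ∀ (n : ℕ) (F : List Bool → Bool), 1 ≤ n →
    ((∃ P : Prog, table n (eval A P) = table n F ∧ size P ≤ 2 * Nat.sqrt (2 ^ n)) →
      table n F ∈ L) ∧
    ((∀ P : Prog, table n (eval A P) = table n F →
        2 * Nat.sqrt (2 ^ n) < size P ∧ 2 ^ n < 40 * n * size P) →
      table n F ∉ L)

theorem wk_of_gap {A : Oracle} {L : Set (List Bool)} (hL : GapBP A L) : Wk A 11 L := by
  classical
  constructor
  · intro j hj w hw
    have h1 := two_pow_big hj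
    refine (hL (2 * j) (fun x => A (w ++ x)) (by omega)).1 ⟨askP w (2 * j), ?_, ?_⟩
    · unfold table
      apply List.map_congr_left
      intro x hx
      have h2 := eval_askP w A x
      rwa [length_cube_mem _ _ hx] at h2
    · rw [H943R6.MC.sqrt_two_pow, size_askP, hw]
      omega
  · intro j hj
    have h1 := few_easyG (solvesGap_LC A) (j := j) (by omega)
    refine le_trans ?_ h1
    have h2 : (Finset.univ.filter (fun T : Fin (2 ^ (2 * j)) → Bool => List.ofFn T ∈ L)) ⊆
        Finset.univ.filter (fun T : Fin (2 ^ (2 * j)) → Bool => List.ofFn T ∈ LC A) := by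
      intro T hT
      rw [Finset.mem_filter] at hT ⊢
      refine ⟨hT.1, ?_⟩
      obtain ⟨G, hG⟩ := H943R6.MC.exists_table (2 * j) (List.ofFn T) (List.length_ofFn)
      have h3 := (hL (2 * j) G (by omega)).2
      rw [hG] at h3
      have h4 : ¬ ∀ P : Prog, table (2 * j) (eval A P) = List.ofFn T →
          2 * Nat.sqrt (2 ^ (2 * j)) < size P ∧ 2 ^ (2 * j) < 40 * (2 * j) * size P :=
        fun hc => h3 hc hT.2
      push Not at h4
      obtain ⟨P, h5, h6⟩ := h4
      refine ⟨2 * j, toCkt P, ?_, fun h7 => ?_⟩
      · rw [← h5]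
        unfold table
        exact List.map_congr_left fun x _ => (eval_toCkt A P x).symm
      · have h8 := size_toCkt P
        have h9 := two_pow_big hj
        have h11 : 8 * (2 * j) * (toCkt P).size ≤ 40 * (2 * j) * size P := by
          calc 8 * (2 * j) * (toCkt P).size ≤ 8 * (2 * j) * (5 * size P) :=
                Nat.mul_le_mul_left _ (by omega)
            _ = 40 * (2 * j) * size P := by ring
        by_cases h12 : 2 * Nat.sqrt (2 ^ (2 * j)) < size P
        · have := h6 h12
          omega
        · rw [H943R6.MC.sqrt_two_pow] at h12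
          have h10 : 8 * (2 * j) * (toCkt P).size ≤ 2 ^ (2 * j) := by
            calc 8 * (2 * j) * (toCkt P).size ≤ 8 * (2 * j) * (10 * 2 ^ j) :=
                  Nat.mul_le_mul_left _ (by omega)
              _ = 160 * j * 2 ^ j := by ring
              _ ≤ 2 ^ j * 2 ^ j := Nat.mul_le_mul_right _ h9
              _ = 2 ^ (2 * j) := by rw [← pow_add]; congr 1; omega
          omega
    exact_mod_cast Finset.card_le_card h2

/-- small programs solve the gap problem -/
theorem gapBP_LB (A : Oracle) : GapBP A (LB A) := by
  intro n F hn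
  constructor
  · rintro ⟨P, h1, h2⟩
    exact ⟨n, P, hn, h1.symm, by rw [length_table]; exact h2⟩
  · rintro h ⟨n', P, hn', h1, h2⟩
    have h3 : n = n' := by
      have := congrArg List.length h1
      rw [length_table, length_table] at this
      exact Nat.pow_right_injective (le_refl 2) this
    subst h3
    rw [length_table] at h2
    have := (h P h1.symm).1
    omega

theorem gap_of_pmbpsp {A : Oracle} (h : WithAdvice (IsNP A) (PMBPSP A)ᶜ) :
    ∃ L, GapBP A L ∧ WithAdvice (IsNP A) Lᶜ := by
  obtain ⟨L', a, p, h1, h2, h3⟩ := h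
  refine ⟨LB A, gapBP_LB A, {z | pairBits (emb (unpair z).1) (unpair z).2 ∈ L'},
    fun N => a (4 * N + 1 + 2 * Nat.sqrt N), p.comp (Polynomial.C 6 * Polynomial.X +
      Polynomial.C 1), H943R6.MC.isNP_preimage h1
        (g := fun z => pairBits (emb (unpair z).1) (unpair z).2)
        (poly_pairBits (poly_emb.comp (Poly.fst poly_unpair)) (Poly.snd poly_unpair)),
    fun N => ?_, fun T => ?_⟩
  · refine (h2 _).trans ?_
    rw [Polynomial.eval_comp]
    apply eval_mono
    have := Nat.sqrt_le_self N
    simp only [Polynomial.eval_add, Polynomial.eval_mul, Polynomial.eval_C, Polynomial.eval_X]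
    omega
  · rw [Set.mem_ofPred_eq, unpair_pairBits]
    have h4 := h3 (emb T)
    rw [length_emb] at h4
    simp only
    rw [← h4, Set.mem_compl_iff, Set.mem_compl_iff, emb_mem]

/-- **The null sets.** -/
theorem null_gap (f : ℕ → ℝ)
    (hf : ∀ ε : ℝ, 0 < ε → ∃ᶠ N : ℕ in Filter.atTop, f N ≤ 2 ^ (Real.logb 2 N) ^ ε) :
    Null f {A : Oracle | ∃ L, GapBP A L ∧ WithAdvice (IsNP A) Lᶜ} :=
  nullW 11 hf _ fun _ ⟨L, h1, h2⟩ => ⟨L, wk_of_gap h1, h2⟩

end Pool.Agent.TH707.BP
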