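import Pool.Agent.TH707.BP.Null
import Pool.Agent.TH707.PM.Main

/-!
# Branching programs with questions to an oracle
-/

set_option autoImplicit false

namespace Pool.Agent.TH707.BP

open Pool.Agent.NPC Pool.Agent.H620R2.Gauge Pool.Agent.H622R2.Ckt
open Pool.Agent.H943R6.MC (cube table length_cube length_cube_mem)
open Pool.Agent.TH707.PM (Agrees code)

/-- One bit of a question to the oracle: `inl i` is the bit number `i` of the input, `inr b` is the
constant `b`. -/
abbrev QBit : Type := ℕ ⊕ Bool

/-- The label of an inner node: `inl i` is the variable number `i`, and `inr l` is the question to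
the oracle with the bits `l`. -/
abbrev Label : Type := ℕ ⊕ List QBit

/-- An inner node: its label, the end of the edge for the answer `0`, and the end of the edge for
the answer `1`. The sink with value `0` has the number `0`, the sink with value `1` has the number
`1`, the inner nodes have the numbers `2, 3, ...` in the order of the list. -/
abbrev Node : Type := Label × ℕ × ℕ

/-- A branching program: the list of its inner nodes, all edges lead to nodes with smaller numbers,
and the source is the last node. -/
abbrev Prog : Type := List Node

/-- The value of a bit of a question. (Bits that do not exist are `false`.) -/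
def qval (x : List Bool) : QBit → Bool
  | .inl i => x.getD i false
  | .inr b => b

/-- The answer at a node with the given label. -/
def ans (A : Oracle) (x : List Bool) : Label → Bool
  | .inl i => x.getD i false
  | .inr l => A (l.map (qval x))

/-- The values of all nodes: the value of a node is the value of the sink in which the path from
the node ends. (An edge to a node that does not exist, or not before its starting point, leads to
the value `false`.) -/
def vals (A : Oracle) (x : List Bool) (P : Prog) : List Bool :=
  P.foldl (fun v p => v ++ [if ans A x p.1 then v.getD p.2.2 false else v.getD p.2.1 false])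
    [false, true]

/-- The output of the program with oracle `A` on input `x`: the value of the source. -/
def eval (A : Oracle) (P : Prog) (x : List Bool) : Bool :=
  (vals A x P).getD (P.length + 1) false

/-- The size of an inner node: `1` for a node with a variable, and one more than the number of the
bits for a question to the oracle. -/
def nodeSize : Node → ℕ
  | (.inl _, _) => 1
  | (.inr l, _) => l.length + 1

/-- The size of a branching program; the sinks are counted. -/
def size (P : Prog) : ℕ := 2 + (P.map nodeSize).sum

/-- Partial MBPSP relative to the oracle `A`: the pairs `⟨τ, 1 ^ s⟩`, where `τ` is a partial truth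
table (of `n ≥ 1` variables) that agrees with the truth table of a branching program of size at most
`s` with questions to `A`. -/
def PMBPSP (A : Oracle) : Set (List Bool) :=
  {y | ∃ (n s : ℕ) (P : Prog) (τ : List (Option Bool)), 1 ≤ n ∧ size P ≤ s ∧
    Agrees τ (table n (eval A P)) ∧ y = pairBits (code τ) (List.replicate s true)}

/-! ### Conversion to circuits -/

/-- the wire for a node -/
def wr : ℕ → Wire
  | 0 => .cst false
  | 1 => .cst true
  | j + 2 => .gate (5 * j + 4)

/-- the wire for a bit of a question -/
def wq : QBit → Wire
  | .inl i => .inp i
  | .inr b => .cst b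

/-- the gate for a label -/
def gl : Label → Gate
  | .inl i => .and (.inp i) (.inp i)
  | .inr l => .ask (l.map wq)

/-- the gates for a node -/
def blk (k : ℕ) (p : Node) : List Gate :=
  [gl p.1, .and (.gate (5 * k)) (wr p.2.2), .not (.gate (5 * k)),
    .and (.gate (5 * k + 2)) (wr p.2.1), .or (.gate (5 * k + 1)) (.gate (5 * k + 3))]

/-- the gates for a program -/
def gts : ℕ → Prog → List Gate
  | _, [] => []
  | k, p :: P => blk k p ++ gts (k + 1) P

/-- the circuit for a program -/
def toCkt (P : Prog) : Circuit := ⟨gts 0 P, wr (P.length + 1)⟩

theorem size_blk (k : ℕ) (p : Node) : ((blk k p).map Gate.size).sum ≤ 5 * nodeSize p := by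
  obtain ⟨l, a, b⟩ := p
  rcases l with i | l
  · simp [blk, gl, Gate.size, nodeSize]
  · simp only [blk, gl, List.map_cons, Gate.size, List.map_nil, List.sum_cons, List.sum_nil,
      nodeSize, List.length_map]
    omega

theorem size_gts (P : Prog) : ∀ k, ((gts k P).map Gate.size).sum ≤ 5 * (P.map nodeSize).sum := by
  induction P with
  | nil => intro k; simp [gts]
  | cons p P ih =>
    intro k
    have h1 := size_blk k p
    have h2 := ih (k + 1)
    simp only [gts, List.map_append, List.sum_append, List.map_cons, List.sum_cons]
    omega

theorem size_toCkt (P : Prog) : (toCkt P).size + 10 ≤ 5 * size P := by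
  have h := size_gts P 0
  unfold toCkt Circuit.size size
  simp only
  omega

/-- the invariant -/
def Inv (x v g : List Bool) : Prop := g.length + 10 = 5 * v.length ∧
  ∀ j, (wr j).val x g = v.getD j false

theorem gl_val (A : Oracle) (x g : List Bool) (l : Label) : (gl l).val A x g = ans A x l := by
  rcases l with i | l
  · simp [gl, Gate.val, Wire.val, ans]
  · simp only [gl, Gate.val, ans, List.map_map]
    congr 1
    apply List.map_congr_left
    intro q _
    rcases q with i | b <;> rfl

theorem getD_app (g h : List Bool) (j : ℕ) :
    (g ++ h).getD (g.length + j) false = h.getD j false := by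
  rw [List.getD_eq_getElem?_getD, List.getElem?_append_right (by omega),
    List.getD_eq_getElem?_getD]
  congr 2
  omega

theorem getD_app_lt (g h : List Bool) {j : ℕ} (hj : j < g.length) :
    (g ++ h).getD j false = g.getD j false := by
  rw [List.getD_eq_getElem?_getD, List.getElem?_append_left hj, List.getD_eq_getElem?_getD]

theorem inv_step (A : Oracle) (x v g : List Bool) (k : ℕ) (hk : v.length = k + 2)
    (h : Inv x v g) (p : Node) :
    Inv x (v ++ [if ans A x p.1 then v.getD p.2.2 false else v.getD p.2.1 false])
      ((blk k p).foldl (fun v g => v ++ [g.val A x v]) g) := by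
  obtain ⟨h1, h2⟩ := h
  have hg : g.length = 5 * k := by omega
  set t := ans A x p.1 with ht
  set a := v.getD p.2.2 false with ha
  set b := v.getD p.2.1 false with hb
  -- the wires for the nodes do not see the new gates
  have hw : ∀ (j : ℕ) (s : List Bool), s.length ≤ 4 → (wr j).val x (g ++ s) = v.getD j false := by
    intro j s hs
    rw [← h2 j]
    rcases j with _ | _ | j
    · rfl
    · rfl
    · show (g ++ s).getD (5 * j + 4) false = g.getD (5 * j + 4) false
      by_cases hj : j < k
      · rw [getD_app_lt _ _ (by omega)]
      · rw [List.getD_eq_default _ _ (by rw [List.length_append]; omega),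
          List.getD_eq_default _ _ (by omega)]
  have e : (blk k p).foldl (fun v g => v ++ [g.val A x v]) g =
      g ++ [t, t && a, !t, !t && b, (t && a) || (!t && b)] := by
    unfold blk
    simp only [List.foldl_cons, List.foldl_nil]
    rw [gl_val, ← ht]
    have e1 : (Gate.and (.gate (5 * k)) (wr p.2.2)).val A x (g ++ [t]) = (t && a) := by
      simp only [Gate.val]
      rw [hw _ _ (by simp), ← ha]
      congr 1
      show (g ++ [t]).getD (5 * k) false = t
      have := getD_app g [t] 0
      rw [hg] at this
      simpa using this
    rw [e1]
    have e2 : (Gate.not (.gate (5 * k))).val A x (g ++ [t] ++ [t && a]) = !t := by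
      simp only [Gate.val]
      congr 1
      show (g ++ [t] ++ [t && a]).getD (5 * k) false = t
      have := getD_app g [t, t && a] 0
      rw [hg] at this
      simpa using this
    rw [e2]
    have e3 : (Gate.and (.gate (5 * k + 2)) (wr p.2.1)).val A x
        (g ++ [t] ++ [t && a] ++ [!t]) = (!t && b) := by
      simp only [Gate.val]
      rw [List.append_assoc, List.append_assoc, hw _ _ (by simp), ← hb]
      congr 1
      show (g ++ ([t] ++ ([t && a] ++ [!t]))).getD (5 * k + 2) false = !t
      have := getD_app g ([t] ++ ([t && a] ++ [!t])) 2
      rw [hg] at this
      rw [this]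
      rfl
    rw [e3]
    have e4 : (Gate.or (.gate (5 * k + 1)) (.gate (5 * k + 3))).val A x
        (g ++ [t] ++ [t && a] ++ [!t] ++ [!t && b]) = ((t && a) || (!t && b)) := by
      simp only [Gate.val]
      rw [List.append_assoc, List.append_assoc, List.append_assoc]
      have h5 := getD_app g ([t] ++ ([t && a] ++ ([!t] ++ [!t && b]))) 1
      have h6 := getD_app g ([t] ++ ([t && a] ++ ([!t] ++ [!t && b]))) 3
      rw [hg] at h5 h6
      show (List.getD _ (5 * k + 1) false || List.getD _ (5 * k + 3) false) = _
      rw [h5, h6]
      rfl
    rw [e4]
    simp
  rw [e]
  have hval : ((t && a) || (!t && b)) = if t then a else b := by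
    cases t <;> simp
  refine ⟨by simp only [List.length_append, List.length_cons, List.length_nil]; omega, fun j => ?_⟩
  rcases Nat.lt_trichotomy j (k + 2) with hj | hj | hj
  · rw [getD_app_lt _ _ (by omega), ← h2 j]
    rcases j with _ | _ | j
    · rfl
    · rfl
    · exact getD_app_lt _ _ (by omega)
  · subst hj
    have h5 := getD_app v [if t then a else b] 0
    rw [hk, Nat.add_zero] at h5
    rw [h5]
    have h6 := getD_app g [t, t && a, !t, !t && b, (t && a) || (!t && b)] 4
    rw [hg] at h6
    show List.getD _ (5 * k + 4) false = _
    rw [h6]
    exact hval
  · obtain ⟨j, rfl⟩ : ∃ i, j = i + 2 := ⟨j - 2, by omega⟩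
    have h7 : (v ++ [if t then a else b]).length ≤ j + 2 := by
      simp only [List.length_append, List.length_cons, List.length_nil]
      omega
    have h8 : (g ++ [t, t && a, !t, !t && b, (t && a) || (!t && b)]).length ≤ 5 * j + 4 := by
      simp only [List.length_append, List.length_cons, List.length_nil]
      omega
    rw [List.getD_eq_default _ _ h7]
    exact List.getD_eq_default _ _ h8

theorem inv_fold (A : Oracle) (x : List Bool) (P : Prog) : ∀ (v g : List Bool) (k : ℕ),
    v.length = k + 2 → Inv x v g →
    Inv x (P.foldl (fun v p => v ++ [if ans A x p.1 then v.getD p.2.2 false else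
      v.getD p.2.1 false]) v) ((gts k P).foldl (fun v g => v ++ [g.val A x v]) g) := by
  induction P with
  | nil => intro v g k _ h; exact h
  | cons p P ih =>
    intro v g k hk h
    rw [List.foldl_cons, gts, List.foldl_append]
    exact ih _ _ (k + 1) (by rw [List.length_append, hk]; rfl) (inv_step A x v g k hk h p)

theorem eval_toCkt (A : Oracle) (P : Prog) (x : List Bool) :
    (toCkt P).eval A x = eval A P x := by
  have h := inv_fold A x P [false, true] [] 0 rfl ⟨rfl, fun j => by
    rcases j with _ | _ | j
    · rfl
    · rfl
    · rfl⟩
  exact h.2 (P.length + 1)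

end Pool.Agent.TH707.BP
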