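import Pool.Agent.TH707.BP.Defs
import Pool.Agent.H620R2.GaugeR.R2

/-!
# Partial MBPSP relative to an oracle is in `NP`
-/

set_option autoImplicit false

namespace Pool.Agent.TH707.BP

open Pool.Agent.NPC Pool.Agent.H620R2.Gauge Pool.Agent.H622R2 Pool.Agent.H622R2.Ckt
open Pool.Agent.H943R6.MC (cube table length_cube length_cube_mem cubeOf poly_cubeOf cubeOf_eq
  exists_of_cubeOf)
open Pool.Agent.TH707.PM (Agrees agr agr_iff poly_agr)

theorem poly_bits {α β : Type} [TEnc α] [TEnc β] {g : α → β} (hg : Poly g) :
    Poly (fun a => bits (g a)) := by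
  have h1 : PC (bits : α → List Bool) (fun x : List Bool => x) (fun a => bits (g a)) := by
    obtain ⟨c, p, h⟩ := hg
    exact ⟨c, p, h⟩
  exact PC.comp (g := fun x => x) (f := fun a => bits (g a)) PC.rawIn h1

/-! ### One input -/

theorem poly_qval {α : Type} [TEnc α] {x : α → List Bool} {q : α → QBit} (hx : Poly x)
    (hq : Poly q) : Poly (fun a => qval (x a) (q a)) :=
  (H943R6.MC.NPQ.sumElim (o := q) (g := fun a i => (x a).getD i false) (h := fun _ b => b) hq
    (Poly.getD (hx.comp (Poly.fst Poly.id)) (Poly.snd Poly.id) (NPC.Poly.const false))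
    (Poly.snd Poly.id)).congr fun a => by cases q a <;> rfl

/-- the question of a node -/
def qn (x : List Bool) (p : Node) : List Bool :=
  Sum.elim (fun _ => []) (fun l => l.map (qval x)) p.1

theorem poly_qn {α : Type} [TEnc α] {x : α → List Bool} {p : α → Node} (hx : Poly x)
    (hp : Poly p) : Poly (fun a => qn (x a) (p a)) := by
  refine H943R6.MC.NPQ.sumElim (o := fun a => (p a).1) (g := fun _ _ => ([] : List Bool))
    (h := fun a l => l.map (qval (x a))) (Poly.fst hp) (NPC.Poly.const _) ?_
  exact NPC.Poly.map (F := fun (c : α × List QBit) q => qval (x c.1) q) (Poly.snd Poly.id)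
    (poly_qval (hx.comp (Poly.fst (Poly.fst Poly.id))) (Poly.snd Poly.id))

/-- the answer at a node, if the answer of the oracle is known -/
def tv (x : List Bool) (p : Node × Bool) : Bool :=
  Sum.elim (fun i => x.getD i false) (fun _ => p.2) p.1.1

theorem poly_tv {α : Type} [TEnc α] {x : α → List Bool} {p : α → Node × Bool} (hx : Poly x)
    (hp : Poly p) : Poly (fun a => tv (x a) (p a)) :=
  H943R6.MC.NPQ.sumElim (o := fun a => (p a).1.1) (g := fun a i => (x a).getD i false)
    (h := fun a _ => (p a).2) (Poly.fst (Poly.fst hp))
    (Poly.getD (hx.comp (Poly.fst Poly.id)) (Poly.snd Poly.id) (NPC.Poly.const false))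
    ((Poly.snd hp).comp (Poly.fst Poly.id))

theorem tv_eq (A : Oracle) (x : List Bool) (p : Node) : tv x (p, A (qn x p)) = ans A x p.1 := by
  obtain ⟨l, a, b⟩ := p
  rcases l with i | l <;> rfl

/-- one step of the evaluation -/
def stp (x v : List Bool) (p : Node × Bool) : List Bool :=
  v ++ [if tv x p = true then v.getD p.1.2.2 false else v.getD p.1.2.1 false]

theorem length_stp (x : List Bool) (l : List (Node × Bool)) : ∀ v : List Bool,
    (l.foldl (stp x) v).length = v.length + l.length := by
  induction l with
  | nil => intro v; rfl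
  | cons p l ih =>
    intro v
    rw [List.foldl_cons, ih]
    unfold stp
    simp only [List.length_append, List.length_cons, List.length_nil]
    omega

/-- the evaluation with known answers -/
def ev (x : List Bool) (l : List (Node × Bool)) : Bool :=
  (l.foldl (stp x) [false, true]).getD (l.length + 1) false

theorem poly_ev : Poly (fun p : List Bool × List (Node × Bool) => ev p.1 p.2) := by
  have h1 : Poly (fun p : List Bool × List (Node × Bool) => p.2.foldl (stp p.1) [false, true]) := by
    refine Poly.foldl (l := fun p : List Bool × List (Node × Bool) => p.2)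
      (s := fun _ => [false, true]) (F := fun p => stp p.1) (Poly.snd Poly.id)
      (NPC.Poly.const _) ?_ (Polynomial.C 4 * Polynomial.X + Polynomial.C 9) ?_
    · have hx : Poly (fun p : (List Bool × List (Node × Bool)) × List Bool × (Node × Bool) =>
          p.1.1) := Poly.fst (Poly.fst Poly.id)
      have hv : Poly (fun p : (List Bool × List (Node × Bool)) × List Bool × (Node × Bool) =>
          p.2.1) := Poly.fst (Poly.snd Poly.id)
      have hp : Poly (fun p : (List Bool × List (Node × Bool)) × List Bool × (Node × Bool) =>
          p.2.2) := Poly.snd (Poly.snd Poly.id)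
      refine Poly.append hv (Poly.cons (Poly.ite (Poly.decide_bool (poly_tv hx hp))
        (Poly.getD hv (Poly.snd (Poly.snd (Poly.fst hp))) (NPC.Poly.const false))
        (Poly.getD hv (Poly.fst (Poly.snd (Poly.fst hp))) (NPC.Poly.const false)))
        (NPC.Poly.const []))
    · intro p k _
      have h2 := length_stp p.1 (p.2.take k) [false, true]
      have h3 := sz_listBool_le ((p.2.take k).foldl (stp p.1) [false, true])
      have h4 := length_lt_sz p.2
      have h7 : sz p = sz p.1 + sz p.2 + 1 := sz_pair _ _
      rw [h2] at h3
      have h5 : (p.2.take k).length ≤ p.2.length := List.length_take_le' _ _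
      simp only [List.length_cons, List.length_nil] at h3
      simp only [Polynomial.eval_add, Polynomial.eval_mul, Polynomial.eval_C,
        Polynomial.eval_X]
      omega
  exact Poly.getD h1 (Poly.succ (Poly.length (Poly.snd Poly.id))) (NPC.Poly.const false)

theorem ev_eq (A : Oracle) (P : Prog) (x : List Bool) :
    ev x (P.zip ((P.map (qn x)).map A)) = eval A P x := by
  have h1 : P.zip ((P.map (qn x)).map A) = P.map (fun p => (p, A (qn x p))) := by
    rw [List.map_map]
    conv_lhs => rw [← List.map_id P]
    rw [List.map_map, List.zip_map']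
    rfl
  unfold ev eval vals
  rw [h1, List.length_map, List.foldl_map]
  congr 2
  funext v p
  unfold stp
  rw [tv_eq]

/-- the evaluation of a program on one input, as a function of bit strings -/
def V0 (A : Oracle) (s : List Bool) : List Bool :=
  match unbits (Prog × List Bool) s with
  | none => []
  | some d => [eval A d.1 d.2]

theorem isFP_V0 (A : Oracle) : IsFP A (V0 A) := by
  have hQ : Poly (fun s : List Bool => match unbits (Prog × List Bool) s with
      | none => []
      | some d => d.1.map (qn d.2)) := by
    refine (Poly.optCases (o := fun s : List Bool => unbits (Prog × List Bool) s)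
      (g := fun _ => ([] : List (List Bool))) (h := fun _ d => d.1.map (qn d.2))
      poly_unbits (NPC.Poly.const []) ?_).congr
      (fun s => by cases unbits (Prog × List Bool) s <;> rfl)
    exact NPC.Poly.map (F := fun (c : List Bool × (Prog × List Bool)) p => qn c.2.2 p)
      (Poly.fst (Poly.snd Poly.id))
      (poly_qn (Poly.snd (Poly.snd (Poly.fst Poly.id))) (Poly.snd Poly.id))
  have hH : Poly (fun p : List Bool × List Bool => match unbits (Prog × List Bool) p.1 with
      | none => []
      | some d => [ev d.2 (d.1.zip p.2)]) := by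
    refine (Poly.optCases (o := fun p : List Bool × List Bool => unbits (Prog × List Bool) p.1)
      (g := fun _ => ([] : List Bool)) (h := fun p d => [ev d.2 (d.1.zip p.2)])
      (poly_unbits.comp (Poly.fst Poly.id)) (NPC.Poly.const []) ?_).congr
      (fun p => by cases unbits (Prog × List Bool) p.1 <;> rfl)
    have e1 : Poly (fun q : (List Bool × List Bool) × (Prog × List Bool) => q.2.1) :=
      Poly.fst (Poly.snd Poly.id)
    have e2 : Poly (fun q : (List Bool × List Bool) × (Prog × List Bool) => q.2.2) :=
      Poly.snd (Poly.snd Poly.id)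
    have e3 : Poly (fun q : (List Bool × List Bool) × (Prog × List Bool) => q.1.2) :=
      Poly.snd (Poly.fst Poly.id)
    have e4 : Poly (fun q : (List Bool × List Bool) × (Prog × List Bool) => q.2.1.zip q.1.2) :=
      Poly.zip e1 e3
    have e5 : Poly (fun q : (List Bool × List Bool) × (Prog × List Bool) =>
        ev q.2.2 (q.2.1.zip q.1.2)) :=
      Poly.comp (g := fun p : List Bool × List (Node × Bool) => ev p.1 p.2)
        (f := fun q : (List Bool × List Bool) × (Prog × List Bool) =>
          (q.2.2, q.2.1.zip q.1.2)) poly_ev (Poly.pair e2 e4)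
    exact Poly.cons e5 (NPC.Poly.const [])
  refine (congrArg (IsFP A) (funext fun s => ?_)).mp (IsFP.tt (A := A) hQ hH)
  unfold V0
  cases unbits (Prog × List Bool) s with
  | none => rfl
  | some d =>
    simp only
    rw [ev_eq]

/-! ### The verifier -/

theorem poly_nodeSize {α : Type} [TEnc α] {p : α → Node} (hp : Poly p) :
    Poly (fun a => nodeSize (p a)) :=
  (H943R6.MC.NPQ.sumElim (o := fun a => (p a).1) (g := fun _ _ => 1)
    (h := fun _ l => l.length + 1) (Poly.fst hp) (NPC.Poly.const 1)
    (Poly.succ (Poly.length (Poly.snd Poly.id)))).congr fun a => by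
      obtain ⟨l, q⟩ := p a
      rcases l with i | l <;> rfl

/-- the check; `c` is the code of the partial table, `u` is the size in unary, `r` are the results -/
def chk (d : Prog × List Bool) (c u r : List Bool) : Bool :=
  decide ((cubeOf d.2).length = d.2.length) && decide (size d.1 ≤ u.length) &&
    (u.all fun b => b) && agr (c, d.2) && decide (r.take d.2.length = d.2) &&
    decide (2 ≤ d.2.length)

/-- the input of a run -/
def WN (y : (ℕ × List Bool) × List Bool) : List Bool :=
  match unbits (Prog × List Bool) (unpair y.1.2).1 with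
  | none => []
  | some d => bits (d.1, (cubeOf d.2).getD y.1.1 [])

/-- the decision -/
def HN (p : List Bool × List Bool) : List Bool :=
  match unbits (Prog × List Bool) (unpair p.1).1 with
  | none => []
  | some d => [chk d (unpair (unpair p.1).2).1 (unpair (unpair p.1).2).2 p.2 &&
      decide (pairBits (unpair (unpair p.1).2).1 (unpair (unpair p.1).2).2 = (unpair p.1).2)]

theorem poly_WN : Poly WN := by
  refine (Poly.optCases (o := fun y : (ℕ × List Bool) × List Bool =>
      unbits (Prog × List Bool) (unpair y.1.2).1)
    (g := fun _ => ([] : List Bool)) (h := fun y d => bits (d.1, (cubeOf d.2).getD y.1.1 []))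
    (poly_unbits.comp (Poly.fst (poly_unpair.comp (Poly.snd (Poly.fst Poly.id)))))
    (NPC.Poly.const []) ?_).congr
    (fun y => by unfold WN; cases unbits (Prog × List Bool) (unpair y.1.2).1 <;> rfl)
  exact poly_bits (Poly.pair (Poly.fst (Poly.snd Poly.id))
    (Poly.getD (poly_cubeOf.comp (Poly.snd (Poly.snd Poly.id)))
      (Poly.fst (Poly.fst (Poly.fst Poly.id))) (NPC.Poly.const [])))

theorem poly_HN : Poly HN := by
  refine (Poly.optCases (o := fun p : List Bool × List Bool =>
      unbits (Prog × List Bool) (unpair p.1).1)
    (g := fun _ => ([] : List Bool))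
    (h := fun p d => [chk d (unpair (unpair p.1).2).1 (unpair (unpair p.1).2).2 p.2 &&
      decide (pairBits (unpair (unpair p.1).2).1 (unpair (unpair p.1).2).2 = (unpair p.1).2)])
    (poly_unbits.comp (Poly.fst (poly_unpair.comp (Poly.fst Poly.id))))
    (NPC.Poly.const []) ?_).congr
    (fun p => by unfold HN; cases unbits (Prog × List Bool) (unpair p.1).1 <;> rfl)
  have hz : Poly (fun q : (List Bool × List Bool) × (Prog × List Bool) => (unpair q.1.1).2) :=
    Poly.snd (poly_unpair.comp (Poly.fst (Poly.fst Poly.id)))
  have hc : Poly (fun q : (List Bool × List Bool) × (Prog × List Bool) =>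
      (unpair (unpair q.1.1).2).1) := Poly.fst (poly_unpair.comp hz)
  have hu : Poly (fun q : (List Bool × List Bool) × (Prog × List Bool) =>
      (unpair (unpair q.1.1).2).2) := Poly.snd (poly_unpair.comp hz)
  have hr : Poly (fun q : (List Bool × List Bool) × (Prog × List Bool) => q.1.2) :=
    Poly.snd (Poly.fst Poly.id)
  have hP : Poly (fun q : (List Bool × List Bool) × (Prog × List Bool) => q.2.1) :=
    Poly.fst (Poly.snd Poly.id)
  have hT : Poly (fun q : (List Bool × List Bool) × (Prog × List Bool) => q.2.2) :=
    Poly.snd (Poly.snd Poly.id)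
  refine Poly.cons (Poly.and ?_ (Poly.decide_eq (poly_pairBits hc hu) hz)) (NPC.Poly.const [])
  unfold chk
  refine Poly.and (Poly.and (Poly.and (Poly.and (Poly.and ?_ ?_) ?_) ?_) ?_) ?_
  · exact Poly.decide_eq (Poly.length (poly_cubeOf.comp hT)) (Poly.length hT)
  · exact Poly.decide_le (Poly.add (NPC.Poly.const 2)
      (Poly.sum (NPC.Poly.map (F := fun _ g => nodeSize g) hP (poly_nodeSize (Poly.snd Poly.id)))))
      (Poly.length hu)
  · exact Poly.all (p := fun _ b => b) hu (Poly.snd Poly.id)
  · exact poly_agr.comp (Poly.pair hc hT)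
  · exact Poly.decide_eq (H943R6.MC.NPQ.take hr (Poly.length hT)) hT
  · exact Poly.decide_le (NPC.Poly.const 2) (Poly.length hT)

/-! ### Short programs -/

/-- small numbers in the bit of a question -/
def nq (n : ℕ) : QBit → QBit
  | .inl i => .inl (min i n)
  | .inr b => .inr b

/-- small numbers in a node -/
def nrm (n k : ℕ) : Node → Node
  | (.inl i, a, b) => (.inl (min i n), min a k, min b k)
  | (.inr l, a, b) => (.inr (l.map (nq n)), min a k, min b k)

theorem getD_min (v : List Bool) {n : ℕ} (h : v.length ≤ n) (i : ℕ) :
    v.getD (min i n) false = v.getD i false := by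
  by_cases hi : i ≤ n
  · rw [min_eq_left hi]
  · rw [min_eq_right (by omega), List.getD_eq_default _ _ h, List.getD_eq_default _ _ (by omega)]

theorem qval_nq {x : List Bool} {n : ℕ} (h : x.length ≤ n) (q : QBit) :
    qval x (nq n q) = qval x q := by
  rcases q with i | b
  · exact getD_min x h i
  · rfl

theorem ans_nrm (A : Oracle) {x : List Bool} {n : ℕ} (h : x.length ≤ n) (k : ℕ) (p : Node) :
    ans A x (nrm n k p).1 = ans A x p.1 := by
  obtain ⟨l, a, b⟩ := p
  rcases l with i | l
  · exact getD_min x h i
  · show A ((l.map (nq n)).map (qval x)) = A (l.map (qval x))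
    rw [List.map_map]
    congr 1
    exact List.map_congr_left fun q _ => qval_nq h q

theorem nrm_snd (n k : ℕ) (p : Node) : (nrm n k p).2 = (min p.2.1 k, min p.2.2 k) := by
  obtain ⟨l, a, b⟩ := p
  rcases l with i | l <;> rfl

theorem fold_nrm (A : Oracle) {x : List Bool} {n k : ℕ} (h : x.length ≤ n) (P : Prog) :
    ∀ v : List Bool, v.length + P.length ≤ k →
    (P.map (nrm n k)).foldl (fun v p => v ++ [if ans A x p.1 then v.getD p.2.2 false else
      v.getD p.2.1 false]) v = P.foldl (fun v p => v ++ [if ans A x p.1 then v.getD p.2.2 false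
        else v.getD p.2.1 false]) v := by
  induction P with
  | nil => intro v _; rfl
  | cons p P ih =>
    intro v hv
    rw [List.length_cons] at hv
    rw [List.map_cons, List.foldl_cons, List.foldl_cons, ans_nrm A h, nrm_snd,
      getD_min v (by omega), getD_min v (by omega)]
    exact ih _ (by simp only [List.length_append, List.length_cons, List.length_nil]; omega)

theorem eval_nrm (A : Oracle) {x : List Bool} {n k : ℕ} (h : x.length ≤ n) (P : Prog)
    (hk : P.length + 2 ≤ k) : eval A (P.map (nrm n k)) x = eval A P x := by
  unfold eval vals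
  rw [fold_nrm A h P [false, true] (by simp only [List.length_cons, List.length_nil]; omega),
    List.length_map]

theorem size_nrm (n k : ℕ) (P : Prog) : size (P.map (nrm n k)) = size P := by
  unfold size
  rw [List.map_map]
  congr 2
  apply List.map_congr_left
  intro p _
  obtain ⟨l, a, b⟩ := p
  rcases l with i | l
  · rfl
  · simp [nodeSize, nrm]

theorem length_le_size (P : Prog) : P.length + 2 ≤ size P := by
  have h : P.length ≤ (P.map nodeSize).sum := by
    induction P with
    | nil => simp
    | cons p P ih =>
      have h1 : 1 ≤ nodeSize p := by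
        obtain ⟨l, q⟩ := p
        rcases l with i | l
        · exact le_rfl
        · exact Nat.le_add_left _ _
      rw [List.map_cons, List.sum_cons, List.length_cons]
      omega
  unfold size
  omega

theorem nodeSize_le {P : Prog} {p : Node} (hp : p ∈ P) : nodeSize p ≤ size P := by
  have h : nodeSize p ≤ (P.map nodeSize).sum :=
    List.single_le_sum (fun x _ => Nat.zero_le x) _ (List.mem_map_of_mem hp)
  unfold size
  omega

theorem sz_nat_le' (n : ℕ) : sz n ≤ 4 * n + 1 := by
  have h1 := sz_nat_le n
  have h2 : n.size ≤ n := Nat.size_le.2 Nat.lt_two_pow_self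
  omega

theorem sz_nrm (n k s : ℕ) (p : Node) (hp : nodeSize p ≤ s) :
    sz (nrm n k p) ≤ s * (4 * n + 8) + 4 * n + 8 * k + 12 := by
  obtain ⟨l, a, b⟩ := p
  have ha := sz_nat_le' (min a k)
  have hb := sz_nat_le' (min b k)
  have ha2 : min a k ≤ k := min_le_right _ _
  have hb2 : min b k ≤ k := min_le_right _ _
  rcases l with i | l
  · have hi := sz_nat_le' (min i n)
    have hi2 : min i n ≤ n := min_le_right _ _
    show sz ((Sum.inl (min i n), min a k, min b k) : Node) ≤ _
    rw [sz_pair, sz_pair, sz_inl]
    omega
  · show sz ((Sum.inr (l.map (nq n)), min a k, min b k) : Node) ≤ _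
    rw [sz_pair, sz_pair, sz_inr]
    have h1 : sz (l.map (nq n)) ≤ (l.map (nq n)).length * (4 * n + 7 + 1) + 1 := by
      refine sz_le_length_mul _ _ fun q hq => ?_
      obtain ⟨q', _, rfl⟩ := List.mem_map.1 hq
      rcases q' with i | c
      · show sz (Sum.inl (min i n) : QBit) ≤ _
        have hi := sz_nat_le' (min i n)
        have hi2 : min i n ≤ n := min_le_right _ _
        rw [sz_inl]
        omega
      · show sz (Sum.inr c : QBit) ≤ _
        have hc := sz_bool_le c
        rw [sz_inr]
        omega
    rw [List.length_map] at h1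
    have h2 : l.length + 1 ≤ s := hp
    have h3 : l.length * (4 * n + 7 + 1) ≤ s * (4 * n + 8) :=
      Nat.mul_le_mul (by omega) le_rfl
    omega

/-- **Partial MBPSP relative to an oracle is in `NP`.** -/
theorem isNP_pmbpsp (A : Oracle) : IsNP A (PMBPSP A) := by
  have hV := IsFP.votes (A := A) (isFP_V0 A) Polynomial.X
    (Q := fun _ => ([] : List (List Bool))) (NPC.Poly.const []) poly_WN poly_HN
  refine ⟨_, Polynomial.X * (Polynomial.X * (Polynomial.C 4 * Polynomial.X + Polynomial.C 8) +
    Polynomial.C 12 * Polynomial.X + Polynomial.C 13) + Polynomial.C 4 * Polynomial.X +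
    Polynomial.C 4, hV, fun y => ?_⟩
  simp only [List.map_nil, Polynomial.eval_X]
  -- the results
  have key : ∀ (P : Prog) (T w : List Bool), unbits (Prog × List Bool) w = some (P, T) →
      (cubeOf T).length = T.length → T.length ≤ (pairBits w y).length →
      ((List.range (pairBits w y).length).map (fun i =>
        decide (V0 A (WN ((i, pairBits w y), [])) = [true]))).take T.length =
          (cubeOf T).map (eval A P) := by
    intro P T w h1 h2 h3
    rw [← List.map_take, List.take_range, min_eq_left h3]
    apply List.ext_getElem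
    · rw [List.length_map, List.length_map, List.length_range, h2]
    · intro i h4 h5
      rw [List.length_map] at h5
      rw [List.getElem_map, List.getElem_map, List.getElem_range]
      unfold WN V0
      simp only [unpair_pairBits, h1, unbits_bits]
      rw [List.getD_eq_getElem _ _ h5]
      cases eval A P (cubeOf T)[i] <;> rfl
  constructor
  · rintro ⟨n, s, P, τ, hn, hs, hτ, rfl⟩
    set T := table n (eval A P) with hT
    have hTl : T.length = 2 ^ n := by rw [hT, table, List.length_map, length_cube]
    have hτl : τ.length = 2 ^ n := by rw [hτ.length_eq, hTl]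
    set P' := P.map (nrm n (P.length + 2)) with hP'
    have hev : table n (eval A P') = T := by
      rw [hT]
      unfold table
      apply List.map_congr_left
      intro x hx
      exact eval_nrm A (le_of_eq (length_cube_mem n x hx)) P le_rfl
    set y := pairBits (PM.code τ) (List.replicate s true) with hy
    have hyl : y.length = 2 * (2 * 2 ^ n) + 1 + s := by
      rw [hy, A2.length_pairBits, PM.length_code, hτl, List.length_replicate]
      omega
    have hPs := length_le_size P
    have hn2 : n < 2 ^ n := Nat.lt_two_pow_self
    have hlen : (bits (P', T)).length ≤ (Polynomial.X * (Polynomial.X * (Polynomial.C 4 *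
        Polynomial.X + Polynomial.C 8) + Polynomial.C 12 * Polynomial.X + Polynomial.C 13) +
        Polynomial.C 4 * Polynomial.X + Polynomial.C 4 : Polynomial ℕ).eval y.length := by
      rw [bits_length, sz_pair]
      have h1 := sz_listBool_le T
      have h2 : sz P' ≤ P'.length * (s * (4 * n + 8) + 4 * n + 8 * (P.length + 2) + 12 + 1) + 1 := by
        refine sz_le_length_mul _ _ fun p hp => ?_
        obtain ⟨p', h3, rfl⟩ := List.mem_map.1 hp
        exact sz_nrm _ _ s p' ((nodeSize_le h3).trans hs)
      have hPl : P'.length = P.length := by rw [hP', List.length_map]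
      rw [hPl] at h2
      simp only [Polynomial.eval_add, Polynomial.eval_mul, Polynomial.eval_C, Polynomial.eval_X]
      set Y := y.length with hY
      have h3 : P.length * (s * (4 * n + 8) + 4 * n + 8 * (P.length + 2) + 12 + 1) ≤
          Y * (Y * (4 * Y + 8) + 12 * Y + 13) := by
        refine Nat.mul_le_mul (by omega) ?_
        have h4 : s * (4 * n + 8) ≤ Y * (4 * Y + 8) := Nat.mul_le_mul (by omega) (by omega)
        omega
      omega
    refine ⟨bits (P', T), hlen, ?_⟩
    have h1 : (cubeOf T).length = T.length := by rw [cubeOf_eq hTl, length_cube, hTl]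
    have h2 : T.length ≤ (pairBits (bits (P', T)) y).length := by
      rw [A2.length_pairBits, hyl, hTl]
      omega
    have h3 := key P' T (bits (P', T)) (unbits_bits _) h1 h2
    unfold HN
    simp only [unpair_pairBits, unbits_bits]
    rw [hy]
    simp only [unpair_pairBits]
    rw [List.cons.injEq]
    refine ⟨?_, rfl⟩
    rw [Bool.and_eq_true]
    refine ⟨?_, by simp⟩
    unfold chk
    simp only [Bool.and_eq_true, decide_eq_true_eq]
    refine ⟨⟨⟨⟨⟨h1, ?_⟩, ?_⟩, ?_⟩, ?_⟩, ?_⟩
    · rw [hP', size_nrm, List.length_replicate]
      exact hs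
    · rw [List.all_eq_true]
      intro b hb
      exact (List.mem_replicate.1 hb).2
    · exact (agr_iff T _).2 ⟨τ, rfl, hτ⟩
    · rw [← hy]
      refine h3.trans ?_
      rw [cubeOf_eq hTl]
      exact hev
    · rw [hTl]
      calc 2 = 2 ^ 1 := rfl
        _ ≤ 2 ^ n := Nat.pow_le_pow_right (by norm_num) hn
  · rintro ⟨w, -, hw⟩
    unfold HN at hw
    simp only [unpair_pairBits] at hw
    cases hd : unbits (Prog × List Bool) w with
    | none =>
      rw [hd] at hw
      simp at hw
    | some d =>
      rw [hd] at hw
      obtain ⟨P, T⟩ := d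
      simp only [List.cons.injEq, and_true] at hw
      rw [Bool.and_eq_true, decide_eq_true_eq] at hw
      obtain ⟨h1, h2⟩ := hw
      unfold chk at h1
      simp only [Bool.and_eq_true, decide_eq_true_eq] at h1
      obtain ⟨⟨⟨⟨⟨g1, g2⟩, g3⟩, g4⟩, g5⟩, g6⟩ := h1
      obtain ⟨n, hn1, hn2⟩ := exists_of_cubeOf g1
      obtain ⟨τ, g7, g8⟩ := (agr_iff _ _).1 g4
      have h3 : T.length ≤ (pairBits w y).length := by
        have h4 : (unpair y).1.length = 2 * τ.length := by rw [g7, PM.length_code]
        have h5 : y.length = 2 * (unpair y).1.length + 1 + (unpair y).2.length := by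
          conv_lhs => rw [← h2]
          rw [A2.length_pairBits]
          omega
        have h6 : τ.length = T.length := g8.length_eq
        rw [A2.length_pairBits]
        omega
      have h4 := (key P T w hd g1 h3).symm.trans g5
      have h5 : table n (eval A P) = T := by
        rw [← h4, hn2]
        rfl
      refine ⟨n, (unpair y).2.length, P, τ, ?_, g2, by rw [h5]; exact g8, ?_⟩
      · by_contra h6
        have h7 : n = 0 := by omega
        rw [hn1, h7] at g6
        omega
      · have h6 : (unpair y).2 = List.replicate (unpair y).2.length true := by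
          rw [List.eq_replicate_iff]
          refine ⟨rfl, fun b hb => ?_⟩
          rw [List.all_eq_true] at g3
          exact g3 b hb
        rw [← h6, ← g7]
        exact h2.symm

end Pool.Agent.TH707.BP
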