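import Pool.Agent.H943R6.MG.Final

/-!
# Null sets for minimisation problems relative to an oracle

The proof of `Pool.Agent.H943R6.MG` (helper943, helper228, helper746), for arbitrary languages which
contain the planted tables and at most a quarter of all tables.
-/

set_option autoImplicit false

namespace Pool.Agent.TH707.BP

open Pool.Agent.NPC Pool.Agent.H620R2.Gauge Pool.Agent.H622R2.Ckt Finset H568R2
open Pool.Agent.H943R6.MC

open Classical in
/-- The language contains the tables of the parts of the oracle, but few tables. -/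
structure Wk (A : Oracle) (J : ℕ) (L : Set (List Bool)) : Prop where
  /-- the planted tables -/
  planted : ∀ j, J ≤ j → ∀ w : List Bool, w.length = 2 ^ j →
    table (2 * j) (fun x => A (w ++ x)) ∈ L
  /-- not many tables -/
  few : ∀ j, J ≤ j → (((Finset.univ.filter
    (fun T : Fin (2 ^ (2 * j)) → Bool => List.ofFn T ∈ L)).card : ℕ) : ℝ) ≤
      (1 / 4 : ℝ) * 2 ^ 2 ^ (2 * j)

/-- the oracles for which the parameters are good -/
def EasyW (J : ℕ) (θ : Par) : Set Oracle :=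
  {A | ∃ (V : List Bool → List Bool) (h : ℕ → List Bool) (L : Set (List Bool)),
    (∀ x, θ.M.out A x = some (V x)) ∧ (∀ n, (h n).length ≤ θ.p'.eval n) ∧ Wk A J L ∧
    ∀ x, x ∈ Lᶜ ↔ ∃ w : List Bool,
      w.length ≤ θ.p.eval (pairBits x (h x.length)).length ∧
      V (pairBits w (pairBits x (h x.length))) = [true]}

theorem plantedW {A : Oracle} {J : ℕ} {L : Set (List Bool)} (hL : Wk A J L) {N j : ℕ} (hj : J ≤ j)
    (hN : 2 ^ (2 ^ j + 2 * j + 1) ≤ N) (s : ℕ) :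
    List.ofFn (fun i => pre N A (pos N j hN s i)) ∈ L := by
  have h := hL.planted j hj (bitsOf (2 ^ j) s) (length_bitsOf' _ _)
  convert h using 1
  apply List.ext_getElem
  · simp [table, length_cube]
  · intro i h1 h2
    simp only [table, List.getElem_map, List.getElem_ofFn, pre, pos, str_idx]

/-- the choice of the parameters, with large `j` -/
theorem asyJ (J : ℕ) (P1 P2 Q : Polynomial ℕ) {f : ℕ → ℝ} (hf : Cond f) (δ : ℝ) (hδ : 0 < δ) :
    ∃ j, (8 ≤ j ∧ J ≤ j) ∧ ∃ N : ℕ, 2 ^ (Q.eval (2 ^ j) + 1) ≤ N ∧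
      ((2 : ℝ) ^ (P1.eval (2 ^ j) + 1) * (2 * (P2.eval (2 ^ j) + 1) *
        (5 / 8) ^ (2 ^ 2 ^ j / (2 * (P2.eval (2 ^ j) + 1))))) * 2 ^ f N ≤ δ := by
  obtain ⟨j, N, hj, ⟨⟨a1, a2, a3, a4⟩, a5⟩, b, c⟩ :=
    ASY.choose Q f hf _ ((V69_ev (P1 + P2 + 2) δ).and (Filter.eventually_ge_atTop (2 ^ J)))
  have hJ : J ≤ j := (Nat.pow_le_pow_iff_right (by norm_num)).1 a5
  refine ⟨j, ⟨hj, hJ⟩, N, b, ?_⟩
  generalize 2 ^ j = n at *
  have hev : (P1 + P2 + 2).eval n = P1.eval n + P2.eval n + 2 := by simp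
  rw [hev] at a1
  set u : ℕ := n / 2 with hu
  have h2u : 2 * u ≤ n := Nat.mul_div_le n 2
  have hpp : 2 ^ u * 2 ^ u ≤ 2 ^ n := by
    rw [← pow_add]
    exact Nat.pow_le_pow_right (by norm_num) (by omega)
  have hTu : 2 ^ u ≤ 2 ^ n / (2 * (P2.eval n + 1)) := by
    rw [Nat.le_div_iff_mul_le (by positivity)]
    refine le_trans ?_ hpp
    exact Nat.mul_le_mul_left _ (by omega)
  have hF : 16 * f N ≤ (2 : ℝ) ^ u := by
    have h1 : f N ≤ 2 ^ ((u : ℝ) - 4) :=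
      c.trans (Real.rpow_le_rpow_of_exponent_le (by norm_num) (by linarith))
    rw [Real.rpow_sub (by norm_num), Real.rpow_natCast] at h1
    have h2 : (2 : ℝ) ^ (4 : ℝ) = 16 := by norm_num
    rw [h2] at h1
    linarith
  have hp : 16 * ((P1.eval n + P2.eval n + 2 : ℕ) : ℝ) ≤ (2 : ℝ) ^ u := by
    have : 16 * (P1.eval n + P2.eval n + 2) ≤ 2 ^ u := by omega
    exact_mod_cast this
  have hT1 : (8 : ℝ) ≤ (2 : ℝ) ^ u := by
    have : 8 ≤ 2 ^ u := by omega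
    exact_mod_cast this
  have hh := V69_half (2 ^ u)
  push_cast at hh
  have hm := V69_real δ hδ (P1.eval n + P2.eval n + 2 : ℕ) (2 ^ u) (f N) hp hF a2 hT1
  rw [Real.rpow_natCast] at hm
  refine le_trans ?_ hm
  have h0 : (0 : ℝ) < 2 ^ f N := by positivity
  refine mul_le_mul_of_nonneg_right ?_ h0.le
  have h1 : ((P2.eval n : ℕ) : ℝ) + 1 ≤ 2 ^ (P2.eval n) := by
    have : P2.eval n + 1 ≤ 2 ^ (P2.eval n) := Nat.lt_two_pow_self
    exact_mod_cast this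
  have h2 : ((5 : ℝ) / 8) ^ (2 ^ n / (2 * (P2.eval n + 1))) ≤ 2 ^ (-((2 : ℝ) ^ u / 2)) := by
    calc ((5 : ℝ) / 8) ^ (2 ^ n / (2 * (P2.eval n + 1))) ≤ (5 / 8) ^ (2 ^ u) :=
          pow_le_pow_of_le_one (by norm_num) (by norm_num) hTu
      _ ≤ (2 / 3) ^ (2 ^ u) := pow_le_pow_left₀ (by norm_num) (by norm_num) _
      _ ≤ _ := hh
  have h3 : (0 : ℝ) ≤ 2 ^ (-((2 : ℝ) ^ u / 2)) := by positivity
  calc (2 : ℝ) ^ (P1.eval n + 1) * (2 * ((P2.eval n : ℕ) + 1) *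
        (5 / 8) ^ (2 ^ n / (2 * (P2.eval n + 1))))
      ≤ (2 : ℝ) ^ (P1.eval n + 1) * (2 * 2 ^ (P2.eval n) * 2 ^ (-((2 : ℝ) ^ u / 2))) := by
        gcongr
    _ = (2 : ℝ) ^ (P1.eval n + P2.eval n + 2) * 2 ^ (-((2 : ℝ) ^ u / 2)) := by
        rw [pow_add, pow_add, pow_add]; ring
    _ ≤ (2 : ℝ) ^ (P1.eval n + P2.eval n + 2) * (2 * 2 ^ (-((2 : ℝ) ^ u / 2))) := by
        have h4 : (0 : ℝ) < (2 : ℝ) ^ (P1.eval n + P2.eval n + 2) := by positivity
        nlinarith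

theorem evG_of_easy (J : ℕ) (θ : Par) :
    ∃ Q : Polynomial ℕ, ∀ A ∈ EasyW J θ, ∀ j, J ≤ j → ∀ (N : ℕ)
      (hN : 2 ^ (2 ^ j + 2 * j + 1) ≤ N), 2 ^ (Q.eval (2 ^ j) + 1) ≤ N →
      EvG θ N j hN (pre N A) := by
  classical
  obtain ⟨qb, hqb⟩ := Alg.out_local θ.M
  refine ⟨qb.comp (Par.Q3 θ), ?_⟩
  rintro A ⟨V, h, L, hM, hh, hL, hx⟩ j hj N hN hN2
  rw [Polynomial.eval_comp] at hN2
  have hout : ∀ y : List Bool, y.length ≤ (Par.Q3 θ).eval (2 ^ j) →
      θ.M.out (orc N (pre N A)) y = some (V y) := by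
    intro y hy
    obtain ⟨Q, _, hQl, hQA⟩ := hqb A y
    rw [← hM y]
    apply hQA
    intro q hq
    apply orc_pre
    have h2 := idx_lt q
    have h3 : q.length ≤ qb.eval ((Par.Q3 θ).eval (2 ^ j)) := (hQl q hq).trans (eval_mono _ hy)
    have h4 : 2 ^ (q.length + 1) ≤ 2 ^ (qb.eval ((Par.Q3 θ).eval (2 ^ j)) + 1) :=
      Nat.pow_le_pow_right (by norm_num) (by omega)
    omega
  have hlen1 := lenG_le j
  have hlen2 : (h (lenG j)).length ≤ (Par.Q1 θ).eval (2 ^ j) := by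
    unfold Par.Q1
    rw [Polynomial.eval_comp]
    exact (hh _).trans (eval_mono _ hlen1)
  have hlen3 : 2 * lenG j + 1 + (h (lenG j)).length ≤
      (2 * lenQ + 1 + Par.Q1 θ).eval (2 ^ j) := by
    have : (2 * lenQ + 1 + Par.Q1 θ).eval (2 ^ j) =
        2 * lenQ.eval (2 ^ j) + 1 + (Par.Q1 θ).eval (2 ^ j) := by simp
    rw [this]
    omega
  have hP3 : (Par.Q3 θ).eval (2 ^ j) =
      2 * θ.p.eval ((2 * lenQ + 1 + Par.Q1 θ).eval (2 ^ j)) + 1 +
        (2 * lenQ + 1 + Par.Q1 θ).eval (2 ^ j) := by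
    simp [Par.Q3, Polynomial.eval_comp]
  have key : ∀ T : Fin (2 ^ (2 * j)) → Bool,
      (AccG θ N j (h (lenG j)) T (pre N A) ↔ List.ofFn T ∉ L) := by
    intro T
    have hl : (List.ofFn T).length = lenG j := List.length_ofFn
    have h1 := hx (List.ofFn T)
    rw [hl] at h1
    have h2 : (pairBits (List.ofFn T) (h (lenG j))).length = 2 * lenG j + 1 + (h (lenG j)).length := by
      rw [Pool.Agent.H620R2.Gauge.length_pairBits, hl]
    rw [h2] at h1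
    have h3 : (List.ofFn T ∉ L) ↔ List.ofFn T ∈ Lᶜ := Iff.rfl
    rw [h3, h1]
    unfold AccG
    apply exists_congr
    intro w
    apply and_congr_right
    intro hw
    rw [hout _ ?_]
    · simp
    · rw [Pool.Agent.H620R2.Gauge.length_pairBits, h2, hP3]
      have h4 := hw.trans (eval_mono θ.p hlen3)
      omega
  refine ⟨(h (lenG j)).length, hh _, h (lenG j), rfl, ?_, ?_⟩
  · intro s _ hacc
    exact (key _).1 hacc (plantedW hL hj hN s)
  · refine ⟨univ.filter (fun T => ¬ List.ofFn T ∈ L), ?_, ?_⟩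
    · intro T hT
      exact (key T).2 (mem_filter.1 hT).2
    · have h1 := hL.few j hj
      have h2 := card_filter_add_card_filter_not (s := (univ : Finset (Fin (2 ^ (2 * j)) → Bool)))
        (fun T => List.ofFn T ∈ L)
      have h3 : (univ : Finset (Fin (2 ^ (2 * j)) → Bool)).card = 2 ^ 2 ^ (2 * j) := by
        simp
      rw [h3] at h2
      have h4 : (((univ.filter (fun T : Fin (2 ^ (2 * j)) → Bool =>
          List.ofFn T ∈ L)).card : ℝ)) + ((univ.filter (fun T : Fin (2 ^ (2 * j)) → Bool =>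
          ¬ List.ofFn T ∈ L)).card : ℝ) = 2 ^ 2 ^ (2 * j) := by
        exact_mod_cast h2
      linarith

theorem mem_easyW {J : ℕ} {A : Oracle}
    (h : ∃ L, Wk A J L ∧ WithAdvice (IsNP A) Lᶜ) : ∃ θ, A ∈ EasyW J θ := by
  obtain ⟨L, hL, L', h, p', ⟨V, p, ⟨M, hM⟩, hL'⟩, hh, hx⟩ := h
  exact ⟨⟨M, p, 1, p'⟩, V, h, L, hM, hh, hL, fun x => (hx x).trans (hL' _)⟩

/-- **The null sets for the minimisation problems.** -/
theorem nullW (J : ℕ) {f : ℕ → ℝ} (hf : Cond f) (O : Set Oracle)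
    (hO : ∀ A ∈ O, ∃ L, Wk A J L ∧ WithAdvice (IsNP A) Lᶜ) : Null f O := by
  refine (null_iUnion (f := f) (EasyW J) fun θ => ?_).mono fun A hA => ?_
  · intro δ hδ
    obtain ⟨Q, hQ⟩ := evG_of_easy J θ
    obtain ⟨j, hj, N, hN, hb⟩ := asyJ J (Par.Q1 θ) (Par.Q2 θ) (Q + 3 * Polynomial.X) hf δ hδ
    have hQe : (Q + 3 * Polynomial.X).eval (2 ^ j) = Q.eval (2 ^ j) + 3 * 2 ^ j := by simp
    rw [hQe] at hN
    have hj2 : j < 2 ^ j := Nat.lt_two_pow_self
    have hN1 : 2 ^ (2 ^ j + 2 * j + 1) ≤ N :=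
      le_trans (Nat.pow_le_pow_right (by norm_num) (by omega)) hN
    have hN2 : 2 ^ (Q.eval (2 ^ j) + 1) ≤ N :=
      le_trans (Nat.pow_le_pow_right (by norm_num) (by omega)) hN
    refine cover_of_event (EvG θ N j hN1) (EasyW J θ)
      (fun A hA => hQ A hA j hj.2 N hN1 hN2) f δ ?_
    exact (mul_le_mul_of_nonneg_right (evG_bound θ hN1) (by positivity)).trans hb
  · obtain ⟨θ, hθ⟩ := mem_easyW (hO A hA)
    exact Set.mem_iUnion.2 ⟨θ, hθ⟩


end Pool.Agent.TH707.BP
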